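import Pool.Agent.U106.FC.Conj

/-!
# The common part of a `×p`-invariant and a `×q`-invariant measure

For all `p, q ≥ 2` (for instance `p = 2`, `q = 3`):

1. Whatever is absolutely continuous with respect to a `×p`-invariant probability measure `μ` and
   with respect to a `×q`-invariant probability measure `ν` is absolutely continuous with respect to
   ONE probability measure `ρ` invariant under both. So two such measures can overlap only along a
   jointly invariant measure.
2. A `×p`-ergodic measure `μ` which is not singular to some `×q`-invariant measure is itself
   invariant under `×q^k` for some `k ≥ 1`.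
3. Furstenberg's conjecture for `p, q` holds if and only if every atomless `×p`-invariant measure
   which is singular to Lebesgue measure is singular to every `×q`-invariant measure, if and only if
   this holds for all pairs `p ^ k, q ^ l`, if and only if the conjecture holds for one pair
   `p ^ k, q ^ l`, if and only if it holds for all these pairs.

No ergodicity, entropy or multiplicative independence is assumed.

Proof of 1: let `ν' = min (μ, ν)` and let `ρ` be a weak limit of the averages of the images of `ν` under
`×p ^ i`; it is invariant under `×p` and `×q`. The part of `μ` singular to `ρ` is carried by a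
`ρ`-null set `N`, which is `×p`-invariant modulo `μ`. The averages of the images of `ν'` all give to `N`
the mass `ν' (N)`, are at most `μ` and at most the averages for `ν`. So up to `ε` they give the mass
`ν' (N)` to a compact subset of `N`, whose mass for the averages of `ν` tends to `0`. Hence
`ν' (N) = 0`. Proof of 2: by 1 the measure `μ` has a positive weight in `ρ`, the weights of the images
of `μ` under `×q ^ j` in `ρ` do not decrease and two different ergodic measures with the same image
would add their weights. Proof of 3: the atomless part of `ρ` is a multiple of Lebesgue measure.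
-/

set_option autoImplicit false

open MeasureTheory

namespace Pool.Agent.Results.MP_e27144_an.CommonPart

open Pool.Agent.U106.FC

/-- **The common part of a `×p`-invariant and a `×q`-invariant measure.**  `Rigid p q` is
Furstenberg's conjecture for `p, q`; `Singular p q` says that every atomless `×p`-invariant
probability measure which is singular to Lebesgue measure is singular to every `×q`-invariant
probability measure. -/
theorem result (p q : ℕ) (hp : 2 ≤ p) (hq : 2 ≤ q) :
    (∀ μ ν : Measure UnitAddCircle, IsProbabilityMeasure μ → IsProbabilityMeasure ν →
      MeasurePreserving (fun x : UnitAddCircle => p • x) μ μ →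
      MeasurePreserving (fun x : UnitAddCircle => q • x) ν ν →
        ∃ ρ : Measure UnitAddCircle, IsProbabilityMeasure ρ ∧
          MeasurePreserving (fun x : UnitAddCircle => p • x) ρ ρ ∧
          MeasurePreserving (fun x : UnitAddCircle => q • x) ρ ρ ∧
          ∀ κ : Measure UnitAddCircle, κ ≪ μ → κ ≪ ν → κ ≪ ρ) ∧
    (∀ μ ν : Measure UnitAddCircle, IsProbabilityMeasure μ → IsProbabilityMeasure ν →
      Ergodic (fun x : UnitAddCircle => p • x) μ →
      MeasurePreserving (fun x : UnitAddCircle => q • x) ν ν → ¬ μ ⟂ₘ ν →
        ∃ k : ℕ, 1 ≤ k ∧ MeasurePreserving (fun x : UnitAddCircle => q ^ k • x) μ μ) ∧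
    List.TFAE [Rigid p q, Singular p q, ∀ k l : ℕ, 1 ≤ k → 1 ≤ l → Singular (p ^ k) (q ^ l),
      ∀ k l : ℕ, 1 ≤ k → 1 ≤ l → Rigid (p ^ k) (q ^ l),
      ∃ k l : ℕ, 1 ≤ k ∧ 1 ≤ l ∧ Rigid (p ^ k) (q ^ l)] := by
  refine ⟨fun μ ν hμ hν hp' hq' =>
    common (cont_mul p) (cont_mul q) (mul_comm' p q) μ ν hp' hq', ?_, tfae hp hq⟩
  intro μ ν hμ hν hp' hq' h
  obtain ⟨k, hk, h1⟩ := ergodic_common (cont_mul p) (cont_mul q) (mul_comm' p q) μ ν hp' hq' h
  rw [mul_iter] at h1
  exact ⟨k, hk, h1⟩

end Pool.Agent.Results.MP_e27144_an.CommonPart
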