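import Pool.Agent.U798.BV.Core4
import Pool.Agent.U139.BV.REP
import Pool.Agent.U338.BV.TIL
import Pool.Agent.U491.BV.ORB
import Pool.Agent.U141.BV.CONV
import Pool.Agent.U660.BV.TRIV
import Pool.Agent.U635.BV.FOUR
import Pool.Agent.U858.BV.SIEV
import Pool.Agent.U111.BV.RGRP
import Pool.Agent.U408.BV.LIM
import Pool.Agent.U429.BV.ARCS
import Pool.Agent.U894.BV.DAV

/-!
# Furstenberg's ×2, ×3 conjecture is a statement about one integral, and every function will do

Let `p ≠ q` be primes (for instance `2` and `3`), and let `f` be a real function on the circle `ℝ / ℤ` which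
has bounded variation, or is continuous with an absolutely convergent Fourier series. Let `M` be the set of
all atomless `×p, ×q`-invariant probability measures. There are two cases, and which one holds can be read
off the Fourier coefficients `a(n)` of `f`, through the class sums `A(n) = ∑_{i,j ≥ 0} a(n pⁱ qʲ)`,
`n` prime to `p q`.

* If all `A(n)` vanish, then `∫ f dμ = ∫ f dλ` for all `μ` in `M`, for a formal reason (`f` is cohomologous to
  a constant).
* If one `A(n)` is not zero, then Furstenberg's conjecture for `p, q` holds IF AND ONLY IF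
  `∫ f dμ = ∫ f dλ` for all `μ` in `M`.

The second case holds for every `f` with `f(0+) ≠ ∫ f dλ`; so it holds for the indicator function of every
finite union `J` of arcs with `0 < |J| < 1` (all arcs, with real end points), for `f(x) = ‖x‖`, and so on. Moreover
the conjecture is equivalent to the symmetry of all `μ` in `M`.

Proof. `M` is stable under `x ↦ k x` (`k ≠ 0`), under division by `d` (`d` prime to `p q`; the law of a random
solution `y` of `d y = x`), and under convolution with invariant measures on finitely many rational points. Let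
`f` have bounded variation, `df = θ`, and `θ' = ∑ p⁻ⁱ q⁻ʲ (pⁱ qʲ)_* θ`. If `∫ f dμ = ∫ f dλ` for all `μ` in `M`, then
`∫∫ V(k y - d t) dμ(y) dθ'(t) = 0` for all `k` and `d` prime to `p q`, where `V` is the part of the sawtooth
function with frequencies prime to `p q`. We multiply the relation for `(g, g d)` by `μ(g) / g` (Möbius function)
and sum over `g` prime to `p q`. By Davenport's estimate `∑ μ(g) V(g z) / g` converges uniformly to
`-sin(2π z) / π` (`z` irrational). So `Im (μ̂(1) θ̂'(-d)) = 0`, and `θ̂'(d)` is `2π i d A(d)`. Convolution with a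
nonsymmetric invariant measure on rational points (which exists, because `-1` is not in the group
generated by `p, q` modulo a prime `ℓ ≡ -1` modulo `8 p q`) gives `μ̂(1) = 0` for all `μ` in `M`. For absolutely
convergent Fourier series the sum over `g` is replaced by an exact sieve.
-/

set_option autoImplicit false

open MeasureTheory Filter Topology

namespace Pool.Agent.Results.MP_e27144_an.OneIntegral

/-- `μ` is an atomless probability measure on the circle, invariant under `t ↦ p t` and `t ↦ q t` -/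
def Inv (p q : ℕ) (μ : Measure (AddCircle (1 : ℝ))) : Prop :=
  IsProbabilityMeasure μ ∧ (∀ x, μ {x} = 0) ∧
    MeasurePreserving (fun x : AddCircle (1 : ℝ) => p • x) μ μ ∧
    MeasurePreserving (fun x : AddCircle (1 : ℝ) => q • x) μ μ

/-- Furstenberg's conjecture for `p, q` -/
def Conj (p q : ℕ) : Prop :=
  ∀ μ : Measure (AddCircle (1 : ℝ)), Inv p q μ → μ = MeasureTheory.volume

/-- all measures in question give `f` the same integral as Lebesgue measure -/
def Right (p q : ℕ) (f : AddCircle (1 : ℝ) → ℝ) : Prop :=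
  ∀ μ : Measure (AddCircle (1 : ℝ)), Inv p q μ → ∫ x, f x ∂μ = ∫ x, f x

/-- the sum of the Fourier coefficients of `f` with the indices `n pⁱ qʲ`, `i, j ≥ 0` -/
noncomputable def A (p q : ℕ) (f : AddCircle (1 : ℝ) → ℝ) (n : ℤ) : ℂ :=
  ∑' ij : ℕ × ℕ, fourierCoeff (fun x => ((f x : ℝ) : ℂ)) (n * (p : ℤ) ^ ij.1 * (q : ℤ) ^ ij.2)

/-- `A(n) = 0` for all `n` divisible neither by `p` nor by `q` -/
def Triv (p q : ℕ) (f : AddCircle (1 : ℝ) → ℝ) : Prop :=
  ∀ n : ℤ, ¬ (p : ℤ) ∣ n → ¬ (q : ℤ) ∣ n → A p q f n = 0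

/-- functions of bounded variation on the circle -/
def BV (f : AddCircle (1 : ℝ) → ℝ) : Prop :=
  BoundedVariationOn (fun t : ℝ => f (t : AddCircle (1 : ℝ))) (Set.Icc 0 1)

/-- continuous functions with an absolutely convergent Fourier series -/
def ACF (f : AddCircle (1 : ℝ) → ℝ) : Prop :=
  Continuous f ∧ Summable fun n : ℤ => fourierCoeff (fun x => ((f x : ℝ) : ℂ)) n

/-- the arc of the circle `ℝ / ℤ` from `α` (included) to `β` (excluded) -/
def arc (α β : ℝ) : Set (AddCircle (1 : ℝ)) := (fun t : ℝ => (t : AddCircle (1 : ℝ))) '' Set.Ico α β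

lemma inv_iff (p q : ℕ) (μ : Measure (AddCircle (1 : ℝ))) :
    Inv p q μ ↔ Pool.Agent.U798.FA.Joint p q μ :=
  ⟨fun h => ⟨h.1, ⟨h.2.1⟩, h.2.2.1, h.2.2.2⟩,
    fun h => ⟨h.1, fun x => h.2.1.measure_singleton x, h.2.2.1, h.2.2.2⟩⟩

lemma conj_right (p q : ℕ) (f : AddCircle (1 : ℝ) → ℝ) (h : Conj p q) : Right p q f := by
  intro μ hμ
  rw [h μ hμ]

/-- the trivial case -/
theorem triv_case {p q : ℕ} (hp : p.Prime) (hq : q.Prime) (hpq : p ≠ q)
    (f : AddCircle (1 : ℝ) → ℝ) (hf : BV f ∨ ACF f) (ht : Triv p q f) : Right p q f := by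
  intro μ hμ
  rcases hf with hf | hf
  · obtain ⟨D⟩ := Pool.Agent.U798.BV.exists_dat Pool.Agent.U139.BV.t_REP Pool.Agent.U338.BV.t_TIL p q
      hp.two_le hq.two_le f hf
    exact Pool.Agent.U798.BV.bv_triv Pool.Agent.U635.BV.t_FOUR Pool.Agent.U660.BV.t_TRIV hp hq hpq D ht μ
      ((inv_iff p q μ).1 hμ)
  · exact Pool.Agent.U798.BV.w_triv Pool.Agent.U111.BV.t_RGRP hp hq hpq hf.1 hf.2 ht μ
      ((inv_iff p q μ).1 hμ)

/-- the decisive case -/
theorem dec_case {p q : ℕ} (hp : p.Prime) (hq : q.Prime) (hpq : p ≠ q)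
    (f : AddCircle (1 : ℝ) → ℝ) (hf : BV f ∨ ACF f) (ht : ¬ Triv p q f) :
    Right p q f ↔ Conj p q := by
  refine ⟨fun h => ?_, conj_right p q f⟩
  unfold Triv at ht
  push Not at ht
  obtain ⟨n, hn1, hn2, hA⟩ := ht
  have H : ∀ μ : Measure UnitAddCircle, Pool.Agent.U798.FA.Joint p q μ →
      ∫ x, f x ∂μ = ∫ x, f x := fun μ hμ => h μ ((inv_iff p q μ).2 hμ)
  intro μ hμ
  have hμ2 := (inv_iff p q μ).1 hμ
  rcases hf with hf | hf
  · obtain ⟨D⟩ := Pool.Agent.U798.BV.exists_dat Pool.Agent.U139.BV.t_REP Pool.Agent.U338.BV.t_TIL p q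
      hp.two_le hq.two_le f hf
    exact Pool.Agent.U798.BV.bv_dec Pool.Agent.U894.BV.t_DAV Pool.Agent.U491.BV.t_ORB
      Pool.Agent.U141.BV.t_CONV Pool.Agent.U635.BV.t_FOUR hp hq hpq D n hn1 hn2 hA H μ hμ2
  · exact Pool.Agent.U798.BV.w_dec Pool.Agent.U491.BV.t_ORB Pool.Agent.U141.BV.t_CONV
      Pool.Agent.U858.BV.t_SIEV hp hq hpq hf.1 hf.2 n hn1 hn2 hA H μ hμ2

/-- a sufficient criterion for the decisive case -/
theorem crit {p q : ℕ} (hp : p.Prime) (hq : q.Prime) (hpq : p ≠ q)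
    (f : AddCircle (1 : ℝ) → ℝ) (hf : BV f ∨ ACF f) (L : ℝ)
    (hL : Tendsto (fun t : ℝ => f (t : AddCircle (1 : ℝ))) (𝓝[>] 0) (𝓝 L)) (hne : L ≠ ∫ x, f x) :
    ¬ Triv p q f := by
  intro ht
  apply hne
  rcases hf with hf | hf
  · obtain ⟨D⟩ := Pool.Agent.U798.BV.exists_dat Pool.Agent.U139.BV.t_REP Pool.Agent.U338.BV.t_TIL p q
      hp.two_le hq.two_le f hf
    exact Pool.Agent.U798.BV.bv_lim Pool.Agent.U635.BV.t_FOUR Pool.Agent.U660.BV.t_TRIV hp hq hpq D ht L hL
  · have h0 := Pool.Agent.U798.BV.w_zero Pool.Agent.U111.BV.t_RGRP hp hq hpq hf.1 hf.2 ht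
    have h1 : Tendsto (fun t : ℝ => f (t : AddCircle (1 : ℝ))) (𝓝[>] 0) (𝓝 (f 0)) := by
      have h2 : Continuous fun t : ℝ => f (t : AddCircle (1 : ℝ)) :=
        hf.1.comp (AddCircle.continuous_mk' (1 : ℝ))
      have h3 := h2.tendsto 0
      have h4 : ((0 : ℝ) : AddCircle (1 : ℝ)) = 0 := rfl
      rw [h4] at h3
      exact h3.mono_left nhdsWithin_le_nhds
    rw [← h0]
    exact tendsto_nhds_unique hL h1

/-- sets -/
theorem set_case {p q : ℕ} (hp : p.Prime) (hq : q.Prime) (hpq : p ≠ q)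
    (J : Set (AddCircle (1 : ℝ))) (hJm : MeasurableSet J) (hJ : BV (J.indicator fun _ => (1 : ℝ)))
    (h0 : (volume : Measure (AddCircle (1 : ℝ))).real J ≠ 0)
    (h1 : (volume : Measure (AddCircle (1 : ℝ))).real J ≠ 1) :
    (∀ μ : Measure (AddCircle (1 : ℝ)), Inv p q μ → μ.real J = (volume : Measure (AddCircle (1 : ℝ))).real J) ↔
      Conj p q := by
  have hint : ∀ μ : Measure (AddCircle (1 : ℝ)), ∫ x, J.indicator (fun _ => (1 : ℝ)) x ∂μ = μ.real J := by
    intro μ
    rw [integral_indicator_const _ hJm, smul_eq_mul, mul_one]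
  have hnt : ¬ Triv p q (J.indicator fun _ => (1 : ℝ)) := by
    obtain ⟨ε, hε, hc⟩ := Pool.Agent.U408.BV.t_LIM
      (fun t : ℝ => J.indicator (fun _ => (1 : ℝ)) (t : AddCircle (1 : ℝ))) hJ (fun t => by
        by_cases h : (t : AddCircle (1 : ℝ)) ∈ J
        · right; exact Set.indicator_of_mem h _
        · left; exact Set.indicator_of_notMem h _)
    have hmem : Set.Ioo (0 : ℝ) ε ∈ 𝓝[>] (0 : ℝ) := Ioo_mem_nhdsGT hε
    rcases hc with hc | hc
    · refine crit hp hq hpq _ (Or.inl hJ) 0 ?_ (by rw [hint]; exact h0.symm)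
      refine tendsto_const_nhds.congr' ?_
      filter_upwards [hmem] with t ht
      exact (hc t ht).symm
    · refine crit hp hq hpq _ (Or.inl hJ) 1 ?_ (by rw [hint]; exact h1.symm)
      refine tendsto_const_nhds.congr' ?_
      filter_upwards [hmem] with t ht
      exact (hc t ht).symm
  rw [← dec_case hp hq hpq _ (Or.inl hJ) hnt]
  unfold Right
  simp_rw [hint]

lemma arc_eq (α β : ℝ) : arc α β = Pool.Agent.U798.FA.arc α β := rfl

/-- finite unions of arcs -/
theorem arcs_case {p q : ℕ} (hp : p.Prime) (hq : q.Prime) (hpq : p ≠ q) (n : ℕ) (α β : Fin n → ℝ)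
    (h : ∀ i, 0 ≤ α i ∧ β i ≤ 1)
    (h0 : (volume : Measure (AddCircle (1 : ℝ))).real (⋃ i, arc (α i) (β i)) ≠ 0)
    (h1 : (volume : Measure (AddCircle (1 : ℝ))).real (⋃ i, arc (α i) (β i)) ≠ 1) :
    (∀ μ : Measure (AddCircle (1 : ℝ)), Inv p q μ → μ.real (⋃ i, arc (α i) (β i)) =
      (volume : Measure (AddCircle (1 : ℝ))).real (⋃ i, arc (α i) (β i))) ↔ Conj p q := by
  refine set_case hp hq hpq _ ?_ ?_ h0 h1
  · exact MeasurableSet.iUnion fun i => Pool.Agent.U798.FA.meas_arc _ _ (h i).1 (h i).2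
  · have h2 := Pool.Agent.U429.BV.t_ARCS n α β
    have e : (fun t : ℝ => (⋃ i, arc (α i) (β i)).indicator (fun _ => (1 : ℝ)) (t : AddCircle (1 : ℝ))) =
        fun t : ℝ => Set.indicator {t : ℝ | ∃ i, α i ≤ Int.fract t ∧ Int.fract t < β i}
          (fun _ => (1 : ℝ)) t := by
      funext t
      have hiff : (t : AddCircle (1 : ℝ)) ∈ (⋃ i, arc (α i) (β i)) ↔
          t ∈ {t : ℝ | ∃ i, α i ≤ Int.fract t ∧ Int.fract t < β i} := by
        rw [Set.mem_iUnion]
        exact exists_congr fun i => Pool.Agent.U798.FA.coe_mem_arc (α i) (β i) t (h i).1 (h i).2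
      by_cases hm : (t : AddCircle (1 : ℝ)) ∈ (⋃ i, arc (α i) (β i))
      · rw [Set.indicator_of_mem hm, Set.indicator_of_mem (hiff.1 hm)]
      · rw [Set.indicator_of_notMem hm, Set.indicator_of_notMem (fun hh => hm (hiff.2 hh))]
    unfold BV
    rw [e]
    exact h2

/-- one arc -/
theorem arc_case {p q : ℕ} (hp : p.Prime) (hq : q.Prime) (hpq : p ≠ q) (α β : ℝ) (h0 : 0 ≤ α)
    (h1 : α < β) (h2 : β ≤ 1) (hne : β - α ≠ 1) :
    (∀ μ : Measure (AddCircle (1 : ℝ)), Inv p q μ → μ.real (arc α β) = β - α) ↔ Conj p q := by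
  have hv : (volume : Measure (AddCircle (1 : ℝ))).real (arc α β) = β - α :=
    Pool.Agent.U798.FA.vol_arc α β h0 h1.le h2
  have hU : (⋃ _ : Fin 1, arc α β) = arc α β := Set.iUnion_const _
  have h := arcs_case hp hq hpq 1 (fun _ => α) (fun _ => β) (fun _ => ⟨h0, h2⟩)
  rw [hU, hv] at h
  exact h (by linarith) hne

/-- Let `p ≠ q` be primes.
**(1)** Let `f` be a real function on the circle of bounded variation, or continuous with an absolutely
convergent Fourier series. If `A(n) = ∑_{i,j} f^(n pⁱ qʲ)` vanishes for all `n` prime to `p q`, then all atomless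
`×p, ×q`-invariant probability measures `μ` satisfy `∫ f dμ = ∫ f dλ`; otherwise all of them satisfy this if and
only if Furstenberg's conjecture holds for `p, q`. The second case holds if the right limit of `f` at `0` exists
and is not `∫ f dλ`.
**(2)** Let `J` be a Borel set whose indicator function has bounded variation (for instance any finite union
of arcs), with Lebesgue measure `|J|` other than `0` and `1`. The conjecture for `p, q` holds if and only if
`μ(J) = |J|` for all these `μ`.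
**(3)** In particular, for real `0 ≤ α < β ≤ 1` with `β - α ≠ 1`, it holds if and only if all these `μ` give the
arc `[α, β)` the mass `β - α`.
**(4)** It holds if and only if all these `μ` are invariant under `x ↦ -x`.
**(5)** For `p, q = 2, 3` the conjecture is the statement `S06465`. -/
theorem result :
    (∀ p q : ℕ, p.Prime → q.Prime → p ≠ q →
      (∀ f : AddCircle (1 : ℝ) → ℝ, BV f ∨ ACF f →
        (Triv p q f → Right p q f) ∧ (¬ Triv p q f → (Right p q f ↔ Conj p q)) ∧
        ∀ L : ℝ, Tendsto (fun t : ℝ => f (t : AddCircle (1 : ℝ))) (𝓝[>] 0) (𝓝 L) →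
          L ≠ ∫ x, f x → ¬ Triv p q f) ∧
      (∀ J : Set (AddCircle (1 : ℝ)), MeasurableSet J → BV (J.indicator fun _ => (1 : ℝ)) →
        (volume : Measure (AddCircle (1 : ℝ))).real J ≠ 0 →
        (volume : Measure (AddCircle (1 : ℝ))).real J ≠ 1 →
        ((∀ μ : Measure (AddCircle (1 : ℝ)), Inv p q μ →
          μ.real J = (volume : Measure (AddCircle (1 : ℝ))).real J) ↔ Conj p q)) ∧
      (∀ (n : ℕ) (α β : Fin n → ℝ), (∀ i, 0 ≤ α i ∧ β i ≤ 1) →
        MeasurableSet (⋃ i, arc (α i) (β i)) ∧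
          BV ((⋃ i, arc (α i) (β i)).indicator fun _ => (1 : ℝ))) ∧
      (∀ α β : ℝ, 0 ≤ α → α < β → β ≤ 1 → β - α ≠ 1 →
        ((∀ μ : Measure (AddCircle (1 : ℝ)), Inv p q μ → μ.real (arc α β) = β - α) ↔ Conj p q)) ∧
      ((∀ μ : Measure (AddCircle (1 : ℝ)), Inv p q μ → μ.map (fun x => -x) = μ) ↔ Conj p q)) ∧
    (Conj 2 3 ↔ ∀ μ : Measure (AddCircle (1 : ℝ)), IsProbabilityMeasure μ → NullSingletonClass μ →
      MeasurePreserving (fun x : AddCircle (1 : ℝ) => (2 : ℕ) • x) μ μ →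
      MeasurePreserving (fun x : AddCircle (1 : ℝ) => (3 : ℕ) • x) μ μ →
      μ = MeasureTheory.volume) := by
  refine ⟨fun p q hp hq hpq => ⟨fun f hf => ⟨triv_case hp hq hpq f hf, dec_case hp hq hpq f hf,
    fun L hL hne => crit hp hq hpq f hf L hL hne⟩,
    fun J hJm hJ h0 h1 => set_case hp hq hpq J hJm hJ h0 h1, fun n α β h => ⟨?_, ?_⟩,
    fun α β h0 h1 h2 hne => arc_case hp hq hpq α β h0 h1 h2 hne, ⟨fun h => ?_, fun h => ?_⟩⟩, ?_⟩
  · exact MeasurableSet.iUnion fun i => Pool.Agent.U798.FA.meas_arc _ _ (h i).1 (h i).2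
  · have h2 := Pool.Agent.U429.BV.t_ARCS n α β
    have e : (fun t : ℝ => (⋃ i, arc (α i) (β i)).indicator (fun _ => (1 : ℝ)) (t : AddCircle (1 : ℝ))) =
        fun t : ℝ => Set.indicator {t : ℝ | ∃ i, α i ≤ Int.fract t ∧ Int.fract t < β i}
          (fun _ => (1 : ℝ)) t := by
      funext t
      have hiff : (t : AddCircle (1 : ℝ)) ∈ (⋃ i, arc (α i) (β i)) ↔
          t ∈ {t : ℝ | ∃ i, α i ≤ Int.fract t ∧ Int.fract t < β i} := by
        rw [Set.mem_iUnion]
        exact exists_congr fun i => Pool.Agent.U798.FA.coe_mem_arc (α i) (β i) t (h i).1 (h i).2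
      by_cases hm : (t : AddCircle (1 : ℝ)) ∈ (⋃ i, arc (α i) (β i))
      · rw [Set.indicator_of_mem hm, Set.indicator_of_mem (hiff.1 hm)]
      · rw [Set.indicator_of_notMem hm, Set.indicator_of_notMem (fun hh => hm (hiff.2 hh))]
    unfold BV
    rw [e]
    exact h2
  · intro μ hμ
    exact Pool.Agent.U798.BV.core_sym Pool.Agent.U491.BV.t_ORB Pool.Agent.U141.BV.t_CONV hp hq
      (fun ν hν => h ν ((inv_iff p q ν).2 hν)) μ ((inv_iff p q μ).1 hμ)
  · intro μ hμ
    rw [h μ hμ]
    exact Measure.map_neg_eq_self (volume : Measure (AddCircle (1 : ℝ)))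
  · constructor
    · intro g μ m1 m2 m3 m4
      exact g μ ⟨m1, fun x => m2.measure_singleton x, m3, m4⟩
    · intro g μ hμ
      exact g μ hμ.1 ⟨hμ.2.1⟩ hμ.2.2.1 hμ.2.2.2

end Pool.Agent.Results.MP_e27144_an.OneIntegral
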