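import Mathlib
import Pool.Agent.U610.PI.Main

/-! # Polynomial images avoid all the counterexamples, up to countably many

Every atomless measure on the line is moved by all but countably many polynomials, modulo one, to a
measure which is singular to all the measures on the circle which are singular to Lebesgue measure
and invariant under `×p` and `×q`, for all coprime `p, q ≥ 2` at once. The same is true for the
linear combinations of any functions which are linearly independent on all sets of positive
measure. -/

set_option autoImplicit false

open MeasureTheory Filter Topology Set Polynomial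

namespace Pool.Agent.Results.MP_e27144_an.PolynomialImages

universe u v

/-- `ν` is a probability measure on the circle which is singular to Lebesgue measure and invariant
under `x ↦ p x` and `x ↦ q x` for some coprime `p, q ≥ 2` (for instance `2` and `3`); the atomless
measures among them are the singular counterexamples to Furstenberg's conjecture. -/
def Exceptional (ν : Measure UnitAddCircle) : Prop :=
  IsProbabilityMeasure ν ∧ ν ⟂ₘ (volume : Measure UnitAddCircle) ∧
    ∃ p q : ℕ, 2 ≤ p ∧ 2 ≤ q ∧ Nat.Coprime p q ∧
      MeasurePreserving (fun x : UnitAddCircle => p • x) ν ν ∧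
      MeasurePreserving (fun x : UnitAddCircle => q • x) ν ν

/-- **All but countably many.** (1) Let `P` be a finite measure on any space and `g i`, `i ∈ ι`,
countably many measurable real functions such that every nontrivial finite linear combination is
nonzero `P`-almost everywhere. Then for all but countably many finite linear combinations
`f = ∑ v i * g i` (real coefficients) the image of `P` under `f mod 1` is singular to every
exceptional measure. (2) In particular, if `P` is an atomless finite measure on the line then for
all but countably many real polynomials `f` the image of `P` under `f mod 1` is singular to every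
exceptional measure. -/
theorem result :
    (∀ (Ω : Type u) [MeasurableSpace Ω] (ι : Type v) [Countable ι] (P : Measure Ω)
      (g : ι → Ω → ℝ), IsFiniteMeasure P → (∀ i, Measurable (g i)) →
      (∀ v : ι →₀ ℝ, v ≠ 0 → P {ω | (v.sum fun i a => a * g i ω) = 0} = 0) →
      {v : ι →₀ ℝ | ¬ ∀ ν : Measure UnitAddCircle, Exceptional ν →
        (P.map fun ω => (((v.sum fun i a => a * g i ω) : ℝ) : UnitAddCircle)) ⟂ₘ ν}.Countable) ∧
    ∀ P : Measure ℝ, IsFiniteMeasure P → (∀ x, P {x} = 0) →
      {f : ℝ[X] | ¬ ∀ ν : Measure UnitAddCircle, Exceptional ν →
        (P.map fun x : ℝ => ((f.eval x : ℝ) : UnitAddCircle)) ⟂ₘ ν}.Countable := by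
  constructor
  · intro Ω _ ι _ P g hP hg hind
    refine (Pool.Agent.U610.PI.countable_finsupp P hg hind).mono fun v hv => ?_
    have hv' : ¬ ∀ ν : Measure UnitAddCircle, Exceptional ν →
        (P.map fun ω => (((v.sum fun i a => a * g i ω) : ℝ) : UnitAddCircle)) ⟂ₘ ν := hv
    push Not at hv'
    obtain ⟨ν, hν, h⟩ := hv'
    exact ⟨ν, hν, h⟩
  · intro P hP hna
    refine (Pool.Agent.U610.PI.countable_poly P hna).mono fun f hf => ?_
    have hf' : ¬ ∀ ν : Measure UnitAddCircle, Exceptional ν →
        (P.map fun x : ℝ => ((f.eval x : ℝ) : UnitAddCircle)) ⟂ₘ ν := hf
    push Not at hf'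
    obtain ⟨ν, hν, h⟩ := hf'
    exact ⟨ν, hν, h⟩

end Pool.Agent.Results.MP_e27144_an.PolynomialImages
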