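import Pool.Agent.U125.PS.Final

/-!
Let `p` be a prime and `q ≥ 2` an integer not divisible by `p` (for instance `p = 2`, `q = 3`).
The probability measures on the circle which are invariant under `x ↦ p x` and `x ↦ q x` and
singular to Lebesgue measure are carried by proper `ℚ`-subspaces of the line, taken modulo one:

* (A) for countably many jointly invariant probability measures and for every countable set `C` of
  reals there is one `σ`-compact rational vector space `V ⊂ ℝ` of Hausdorff dimension `0`, with
  `1 ∈ V`, which contains no irrational point of `C`, such that outside `V` modulo one each of the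
  measures is a multiple of Lebesgue measure (the multiple `0` if the measure is singular);
* (B) if `X i`, `i < k`, are random points of the circle, arbitrarily dependent, with given singular
  jointly invariant laws, then an integer combination of them hits a point `t` with probability
  less than `ε`, uniformly in the dependence and in `t`, with the exception of finitely many
  rational points `t` which depend only on the laws, the coefficients and `ε`; in particular it
  never has an irrational atom;
* (C) every atomless jointly invariant probability measure is Lebesgue measure if and only if every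
  atomless jointly invariant probability measure vanishes on all proper Borel subgroups of the
  circle.
-/

set_option autoImplicit false

open MeasureTheory
open scoped ENNReal

namespace Pool.Agent.Results.MP_e27144_an.ProperSubspaces

/-- `μ` is invariant under `x ↦ p x` and under `x ↦ q x`. -/
def Joint (p q : ℕ) (μ : Measure UnitAddCircle) : Prop :=
  MeasurePreserving (fun x : UnitAddCircle => p • x) μ μ ∧
    MeasurePreserving (fun x : UnitAddCircle => q • x) μ μ

theorem result (p q : ℕ) (hp : p.Prime) (hq : 2 ≤ q) (hpq : ¬ p ∣ q) :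
    (∀ μ : ℕ → Measure UnitAddCircle, (∀ j, IsProbabilityMeasure (μ j)) →
      (∀ j, Joint p q (μ j)) → ∀ C : Set ℝ, C.Countable →
      ∃ V : Submodule ℚ ℝ, (1 : ℝ) ∈ V ∧ IsSigmaCompact (V : Set ℝ) ∧ dimH (V : Set ℝ) = 0 ∧
        (∀ x ∈ C, x ∈ V → ∃ r : ℚ, x = r) ∧
        ∀ j, ∃ c : ℝ≥0∞, (μ j ⟂ₘ volume → c = 0) ∧
          ∀ B : Set UnitAddCircle, MeasurableSet B → (∀ r ∈ V, ((r : ℝ) : UnitAddCircle) ∉ B) →
            μ j B = c * volume B) ∧
    (∀ (k : ℕ) (μ : Fin k → Measure UnitAddCircle), (∀ i, IsProbabilityMeasure (μ i)) →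
      (∀ i, Joint p q (μ i)) → (∀ i, μ i ⟂ₘ volume) → ∀ (a : Fin k → ℤ) (ε : ℝ≥0∞), 0 < ε →
      ∃ F : Set UnitAddCircle, F.Finite ∧ (∀ t ∈ F, IsOfFinAddOrder t) ∧
        ∀ (Ω : Type) [MeasurableSpace Ω] (P : Measure Ω) (X : Fin k → Ω → UnitAddCircle),
          (∀ i, Measurable (X i)) → (∀ i, P.map (X i) = μ i) →
          ∀ t ∉ F, P {ω | ∑ i, a i • X i ω = t} < ε) ∧
    ((∀ μ : Measure UnitAddCircle, IsProbabilityMeasure μ → Joint p q μ →
        (∀ t, μ {t} = 0) → μ = volume) ↔
      ∀ μ : Measure UnitAddCircle, IsProbabilityMeasure μ → Joint p q μ → (∀ t, μ {t} = 0) →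
        ∀ H : AddSubgroup UnitAddCircle, MeasurableSet (H : Set UnitAddCircle) → H ≠ ⊤ →
          μ (H : Set UnitAddCircle) = 0) := by
  refine ⟨?_, ?_, ?_⟩
  · intro μ hμ hinv C hC
    exact Pool.Agent.U125.PS.family hp hq hpq μ hμ hinv hC
  · intro k μ hμ hinv hs a ε hε
    exact Pool.Agent.U125.PS.coupled hp hq hpq μ hμ hinv hs a hε
  · have h := Pool.Agent.U125.PS.equiv hp hq hpq
    constructor
    · intro h1 μ hμ hinv ha H hm hne
      exact h.1 (fun μ hμ hip hiq ha => h1 μ hμ ⟨hip, hiq⟩ ha) μ hμ hinv.1 hinv.2 ha H hm hne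
    · intro h1 μ hμ hinv ha
      exact h.2 (fun μ hμ hip hiq ha H hm hne => h1 μ hμ ⟨hip, hiq⟩ ha H hm hne) μ hμ
        hinv.1 hinv.2 ha

end Pool.Agent.Results.MP_e27144_an.ProperSubspaces
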